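import Mathlib

set_option autoImplicit false

namespace Pool.Agent.Results.MP_462cdc_an.NotRotund

open Filter Topology Metric

/-- The points with at most one nearest point in `G`. -/
def uniq {E : Type} [NormedAddCommGroup E] (G : Set E) : Set E :=
  {x | {g | g ∈ G ∧ ‖x - g‖ = infDist x G}.Subsingleton}

section Aux

theorem uniq_Gδ {E : Type} [NormedAddCommGroup E] (G : Set E) (hG : IsCompact G) :
    IsGδ (uniq G) := by
  have : CompactSpace G := isCompact_iff_compactSpace.1 hG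
  have e : uniq G = ⋂ n : ℕ, (Prod.fst '' {p : E × (G × G) | ‖p.1 - p.2.1‖ = infDist p.1 G ∧
      ‖p.1 - p.2.2‖ = infDist p.1 G ∧ 1 / ((n : ℝ) + 1) ≤ ‖(p.2.1 : E) - p.2.2‖})ᶜ := by
    ext x
    simp only [Set.mem_iInter, Set.mem_compl_iff]
    constructor
    · rintro h n ⟨⟨y, g, g'⟩, ⟨h1, h2, h3⟩, rfl⟩
      have : (g : E) = g' := h ⟨g.2, h1⟩ ⟨g'.2, h2⟩
      simp only [this, sub_self, norm_zero] at h3
      have : (0 : ℝ) < 1 / ((n : ℝ) + 1) := by positivity
      linarith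
    · rintro h g ⟨hg, h1⟩ g' ⟨hg', h2⟩
      by_contra hne
      obtain ⟨n, hn⟩ := exists_nat_one_div_lt (norm_pos_iff.2 (sub_ne_zero.2 hne))
      exact h n ⟨⟨x, ⟨g, hg⟩, ⟨g', hg'⟩⟩, ⟨h1, h2, hn.le⟩, rfl⟩
  rw [e]
  refine IsGδ.iInter_of_isOpen fun n => IsClosed.isOpen_compl (self := ?_)
  apply isClosedMap_fst_of_compactSpace
  have hc : Continuous fun p : E × (G × G) => infDist p.1 G :=
    (continuous_infDist_pt G).comp continuous_fst
  refine (isClosed_eq ?_ hc).inter ((isClosed_eq ?_ hc).inter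
    (isClosed_le (f := fun _ => 1 / ((n : ℝ) + 1))
      (g := fun p : E × (G × G) => ‖(p.2.1 : E) - p.2.2‖) continuous_const ?_)) <;> fun_prop

theorem uniq_dense {E K : Type} [NormedAddCommGroup E] [NormedSpace ℝ E] [NormedAddCommGroup K]
    [NormedSpace ℝ K] (hK : ¬ FiniteDimensional ℝ K) (π : E →L[ℝ] K) (σ : K →L[ℝ] E)
    (hπσ : ∀ k, π (σ k) = k)
    (hrot : ∀ x y : E, π x ≠ 0 → ‖x + y‖ = ‖x‖ + ‖y‖ → ∃ r : ℝ, 0 ≤ r ∧ r • x = y)
    (G : Set E) (hG : IsCompact G) : Dense (uniq G) := by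
  rcases G.eq_empty_or_nonempty with rfl | hne
  · intro x; exact subset_closure fun g hg => hg.1.elim
  rw [Metric.dense_iff]
  intro x₀ ε hε
  obtain ⟨x, hx, hxG⟩ : ∃ x, dist x x₀ < ε / 2 ∧ π x ∉ π '' G := by
    by_contra hcon
    push Not at hcon
    obtain ⟨δ, hδ, hδ'⟩ := Metric.continuousAt_iff.1 (σ.continuous.continuousAt (x := 0)) (ε / 2)
      (by positivity)
    apply hK
    refine FiniteDimensional.of_isCompact_closedBall ℝ (half_pos hδ) (c := π x₀) ?_
    refine (hG.image π.continuous).of_isClosed_subset isClosed_closedBall fun k hk => ?_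
    have h1 : dist (k - π x₀) 0 < δ := by
      rw [dist_zero_right, ← dist_eq_norm]; exact lt_of_le_of_lt hk (half_lt_self hδ)
    have h2 := hδ' h1
    rw [map_zero, dist_zero_right] at h2
    have := hcon (x₀ + σ (k - π x₀)) (by rwa [dist_eq_norm, add_sub_cancel_left])
    rwa [map_add, hπσ, add_sub_cancel] at this
  obtain ⟨y, hy, hd⟩ := hG.exists_infDist_eq_dist hne x
  rw [dist_eq_norm] at hd
  have hxy : π (x - y) ≠ 0 := by
    rw [map_sub, sub_ne_zero]; exact fun h => hxG ⟨y, hy, h.symm⟩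
  have hd0 : 0 < ‖x - y‖ := norm_pos_iff.2 fun h => hxy (by rw [h, map_zero])
  set d := ‖x - y‖ with hdd
  obtain ⟨τ, hτ0, hτ1, hτ⟩ : ∃ τ : ℝ, 0 < τ ∧ τ < 1 ∧ τ * d < ε / 2 := by
    refine ⟨min (1 / 2) (ε / (4 * d)), by positivity, (min_le_left _ _).trans_lt (by norm_num), ?_⟩
    calc _ ≤ ε / (4 * d) * d := by gcongr; exact min_le_right _ _
      _ = ε / 4 := by field_simp
      _ < ε / 2 := by linarith
  have hn1 : ‖τ • (x - y)‖ = τ * d := by rw [norm_smul, Real.norm_of_nonneg hτ0.le]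
  have key : ∀ g, g ∈ G ∧ ‖x - τ • (x - y) - g‖ = infDist (x - τ • (x - y)) G → g = y := by
    rintro g ⟨hg, hg'⟩
    have h1 : infDist (x - τ • (x - y)) G ≤ (1 - τ) * d := by
      refine (infDist_le_dist_of_mem hy).trans (le_of_eq ?_)
      have : x - τ • (x - y) - y = (1 - τ) • (x - y) := by module
      rw [dist_eq_norm, this, norm_smul, Real.norm_of_nonneg (by linarith)]
    have h2 : d ≤ ‖x - g‖ := by rw [← hd, ← dist_eq_norm]; exact infDist_le_dist_of_mem hg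
    have h3 : τ • (x - y) + (x - τ • (x - y) - g) = x - g := by abel
    have h4 := norm_add_le (τ • (x - y)) (x - τ • (x - y) - g)
    rw [h3] at h4
    have h5 : ‖x - τ • (x - y) - g‖ = (1 - τ) * d := by linarith
    obtain ⟨r, hr, hr'⟩ := hrot (τ • (x - y)) (x - τ • (x - y) - g)
      (by rw [map_smul]; exact smul_ne_zero hτ0.ne' hxy) (by rw [h3]; linarith)
    have h6 : r * τ = 1 - τ := by
      have := congrArg norm hr'
      rw [norm_smul, hn1, h5, Real.norm_of_nonneg hr, ← mul_assoc] at this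
      exact mul_right_cancel₀ hd0.ne' this
    rw [smul_smul, h6] at hr'
    have : g = x - τ • (x - y) - (1 - τ) • (x - y) := by rw [hr']; abel
    rw [this]; module
  refine ⟨x - τ • (x - y), ?_, fun g hg g' hg' => (key g hg).trans (key g' hg').symm⟩
  have h1 : dist (x - τ • (x - y)) x < ε / 2 := by
    rw [dist_eq_norm, sub_sub_cancel_left, norm_neg, hn1]; exact hτ
  exact (dist_triangle _ x _).trans_lt (by linarith)

abbrev K : Type := lp (fun _ : ℕ => ℝ) 2

abbrev A : Type := WithLp 2 (ℝ × K)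

noncomputable def sndA : A →L[ℝ] K := WithLp.sndL 2 ℝ ℝ K

noncomputable def p1 : WithLp 1 (A × A) →L[ℝ] K := sndA ∘L WithLp.fstL 1 ℝ A A

noncomputable def p2 : WithLp 1 (A × A) →L[ℝ] K := sndA ∘L WithLp.sndL 1 ℝ A A

noncomputable def E : Submodule ℝ (WithLp 1 (A × A)) := LinearMap.eqLocus p1.toLinearMap p2.toLinearMap

theorem E_closed : IsClosed (E : Set (WithLp 1 (A × A))) :=
  isClosed_eq p1.continuous p2.continuous

theorem K_inf : ¬ FiniteDimensional ℝ K := by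
  intro h
  have h1 : Orthonormal ℝ fun n : ℕ => (lp.single 2 n (1 : ℝ) : K) := by
    rw [orthonormal_iff_ite]
    intro i j
    rw [lp.inner_single_left]
    by_cases h : i = j
    · subst h; simp
    · simp [h, Pi.single_eq_of_ne h]
  exact Module.Finite.not_linearIndependent_of_infinite _ h1.linearIndependent

noncomputable def inA : K →L[ℝ] A :=
  (WithLp.prodContinuousLinearEquiv 2 ℝ ℝ K).symm.toContinuousLinearMap ∘L
    ContinuousLinearMap.inr ℝ ℝ K

noncomputable def σ : K →L[ℝ] E :=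
  ((WithLp.prodContinuousLinearEquiv 1 ℝ A A).symm.toContinuousLinearMap ∘L
    (inA.prod inA)).codRestrict E fun _ => rfl

theorem rot (x y : E) (hx : (p1 ∘L E.subtypeL) x ≠ 0) (h : ‖x + y‖ = ‖x‖ + ‖y‖) :
    ∃ r : ℝ, 0 ≤ r ∧ r • x = y := by
  change ‖x.1 + y.1‖ = ‖x.1‖ + ‖y.1‖ at h
  rw [WithLp.prod_norm_eq_of_L1, WithLp.prod_norm_eq_of_L1, WithLp.prod_norm_eq_of_L1,
    WithLp.add_fst, WithLp.add_snd] at h
  have h1 := norm_add_le x.1.fst y.1.fst
  have h2 := norm_add_le x.1.snd y.1.snd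
  have hx1 : sndA x.1.fst ≠ 0 := hx
  have hx2 : sndA x.1.fst = sndA x.1.snd := x.2
  have hy2 : sndA y.1.fst = sndA y.1.snd := y.2
  obtain ⟨r, hr, hr'⟩ := (sameRay_iff_norm_add.2 (by linarith : ‖x.1.fst + y.1.fst‖ = _)
    ).exists_nonneg_left (fun h => hx1 (by rw [h, map_zero]))
  obtain ⟨s, -, hs'⟩ := (sameRay_iff_norm_add.2 (by linarith : ‖x.1.snd + y.1.snd‖ = _)
    ).exists_nonneg_left (fun h => hx1 (by rw [hx2, h, map_zero]))
  have hrs : r = s := by
    rw [← hr', ← hs', map_smul, map_smul, ← hx2] at hy2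
    exact smul_left_injective ℝ hx1 hy2
  refine ⟨r, hr, Subtype.ext ?_⟩
  refine (WithLp.equiv 1 (A × A)).injective (Prod.ext hr' ?_)
  rw [hrs]; exact hs'

theorem norm_L1 (a b : A) : ‖(WithLp.toLp 1 (a, b) : WithLp 1 (A × A))‖ = ‖a‖ + ‖b‖ :=
  WithLp.prod_norm_eq_of_L1 _

noncomputable def e : A := WithLp.toLp 2 (1, 0)

theorem norm_e : ‖e‖ = 1 := by
  rw [WithLp.prod_norm_eq_of_L2]; simp [e]

noncomputable def x1 : E := ⟨WithLp.toLp 1 (e, 0), rfl⟩

noncomputable def x2 : E := ⟨WithLp.toLp 1 (0, e), rfl⟩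

theorem norm_x1 : ‖x1‖ = 1 := (norm_L1 e 0).trans (by rw [norm_e, norm_zero, add_zero])

theorem norm_x2 : ‖x2‖ = 1 := (norm_L1 0 e).trans (by rw [norm_e, norm_zero, zero_add])

theorem norm_x12 : ‖x1 + x2‖ = 2 :=
  (norm_L1 (e + 0) (0 + e)).trans (by rw [add_zero, zero_add, norm_e]; norm_num)

theorem x_ne : x1 ≠ x2 := fun h => by
  have : e = 0 := congrArg (fun z : E => z.1.fst) h
  have he := norm_e
  rw [this, norm_zero] at he
  exact zero_ne_one he

theorem dense_E (G : Set E) (hG : IsCompact G) : Dense (uniq G) :=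
  uniq_dense K_inf (p1 ∘L E.subtypeL) σ (fun _ => rfl) rot G hG

end Aux

theorem result :
    ∃ (X : Type) (_ : NormedAddCommGroup X) (_ : NormedSpace ℝ X) (_ : CompleteSpace X),
      (∃ x y : X, ‖x‖ = 1 ∧ ‖y‖ = 1 ∧ x ≠ y ∧ ‖(1 / 2 : ℝ) • (x + y)‖ = 1) ∧
      ∀ G : Set X, IsCompact G → Dense (uniq G) ∧ ¬ IsMeagre (uniq G) := by
  have hc : CompleteSpace E := E_closed.completeSpace_coe
  refine ⟨E, inferInstance, inferInstance, hc, ⟨x1, x2, norm_x1, norm_x2, x_ne, ?_⟩,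
    fun G hG => ?_⟩
  · rw [norm_smul, norm_x12]; norm_num
  · exact ⟨dense_E G hG, not_isMeagre_of_isGδ_of_dense (uniq_Gδ G hG) (dense_E G hG)⟩

end Pool.Agent.Results.MP_462cdc_an.NotRotund
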